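import Mathlib
import Pool.Agent.V1137.Threads

/-!
# MP_8e2f96_co, Q1: `λ₂(G) ≤ c ν(G)` for all connected graphs with minimum degree at least `d ≥ 2`
-/

namespace Pool.Agent.Results.MP_8e2f96_co.GapHeight

open Pool.Agent.V1137.Magneto Pool.Agent.V1137.Gap Pool.Agent.V1137.Threads

/-- The absolute constant `440` works for every connected graph of minimum degree at least `2`. -/
theorem main (V : Type) [Fintype V] [DecidableEq V] (G : SimpleGraph V) [DecidableRel G.Adj]
    (hconn : G.Connected) (hdeg : ∀ v, 2 ≤ G.degree v) : lam2 G ≤ 440 * nu G := by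
  have hne : Nonempty V := hconn.nonempty
  obtain ⟨r⟩ := hne
  have hne : Nonempty V := ⟨r⟩
  have hcard : 2 ≤ Fintype.card V := by
    have := G.degree_lt_card_verts r
    have := hdeg r
    omega
  -- a vertex of minimum degree
  obtain ⟨w, hw⟩ := Finite.exists_min (fun v => G.degree v)
  have hl2 := lam2_le_degree G hcard w
  rcases Nat.lt_or_ge (G.degree w) 3 with h2 | h3
  · have hd2 : G.degree w = 2 := by have := hdeg w; omega
    -- the longest thread
    let S : Finset (V × V) := Finset.univ.filter fun p => G.Adj p.1 p.2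
    have hS : S.Nonempty := by
      have : 0 < G.degree r := by have := hdeg r; omega
      rw [← SimpleGraph.card_neighborFinset_eq_degree, Finset.card_pos] at this
      obtain ⟨c, hc⟩ := this
      rw [SimpleGraph.mem_neighborFinset] at hc
      exact ⟨(r, c), by simp [S, hc]⟩
    obtain ⟨p, hpS, hpmax⟩ := Finset.exists_max_image S (fun p => ell G r p) hS
    have hp : G.Adj p.1 p.2 := by simpa [S] using hpS
    have hmax : ∀ p' : V × V, G.Adj p'.1 p'.2 → ell G r p' ≤ ell G r p := by
      intro p' hp'
      exact hpmax p' (by simp [S, hp'])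
    have hnu := nu_ge_thread G r hdeg hconn (ell G r p) (ell_pos G r p) hmax
    have hK1 : (1 : ℝ) ≤ ell G r p := by exact_mod_cast ell_pos G r p
    have hK0 : (0 : ℝ) < (ell G r p : ℝ) ^ 2 := by positivity
    have h440 : 40 / (ell G r p : ℝ) ^ 2 ≤ 440 * nu G := by
      have : 40 / (ell G r p : ℝ) ^ 2 = 440 * (1 / (11 * (ell G r p : ℝ) ^ 2)) := by
        field_simp; norm_num
      rw [this]
      exact mul_le_mul_of_nonneg_left hnu (by norm_num)
    refine le_trans ?_ h440
    rcases Nat.lt_or_ge (ell G r p) 3 with hsm | hlg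
    · rw [hd2] at hl2
      have h2' : (ell G r p : ℝ) ≤ 2 := by exact_mod_cast (by omega : ell G r p ≤ 2)
      rw [le_div_iff₀ hK0]
      have h4 : (ell G r p : ℝ) ^ 2 ≤ 4 := by nlinarith
      have h5 : lam2 G ≤ 4 := by
        have : (2 : ℝ) * ((2 : ℕ) : ℝ) = 4 := by norm_num
        linarith
      by_cases hneg : lam2 G ≤ 0
      · nlinarith
      · push Not at hneg
        nlinarith
    · have ht := lam2_le_thread G r hdeg hconn p hp hmax hlg
      refine ht.trans ?_
      rw [div_pow, mul_pow]
      apply div_le_div_of_nonneg_right _ hK0.le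
      have hpi := Real.pi_lt_d2
      have hpi0 := Real.pi_pos
      nlinarith
  · have hG : ∀ v, G.degree w ≤ G.degree v := hw
    have hnu := nu_ge_of_minDeg G (G.degree w) (by omega) hG
    set D : ℝ := (G.degree w : ℝ) with hD
    have hD3 : (3 : ℝ) ≤ D := by rw [hD]; exact_mod_cast h3
    have hsqrt : Real.sqrt (D - 1) ≤ 43 / 90 * D := by
      rw [Real.sqrt_le_left (by positivity)]
      nlinarith
    have : 2 / 45 * D ≤ nu G := by linarith
    linarith

/-- Q1: for each integer `d ≥ 2` there is `c_d > 0` with `λ₂(G) ≤ c_d ν(G)` for every connected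
graph of minimum degree at least `d`; in fact one absolute constant works for all `d`. -/
theorem result :
    (∀ d : ℕ, 2 ≤ d → ∃ c : ℝ, 0 < c ∧ ∀ (V : Type) [Fintype V] [DecidableEq V]
      (G : SimpleGraph V) [DecidableRel G.Adj], G.Connected → (∀ v, d ≤ G.degree v) →
        lam2 G ≤ c * nu G) ∧
    (∀ (V : Type) [Fintype V] [DecidableEq V] (G : SimpleGraph V) [DecidableRel G.Adj],
      G.Connected → (∀ v, 2 ≤ G.degree v) → lam2 G ≤ 440 * nu G) := by
  refine ⟨fun d hd => ⟨440, by norm_num, fun V _ _ G _ hc hG => ?_⟩, fun V _ _ G _ hc hG => ?_⟩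
  · exact main V G hc (fun v => hd.trans (hG v))
  · exact main V G hc hG

end Pool.Agent.Results.MP_8e2f96_co.GapHeight
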